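import Pool.Agent.J6H94.BC.D2bD

/-!
# Module D2b: the step of the induction
-/

set_option autoImplicit false

namespace Pool.Agent.J6H94.BC

open Pool.Agent.TH672 (Fm LogK ReplK Sw)
open Pool.Agent.TH672.Form (ren)
open Pool.Agent.TH636.BC (Fml blk inst lt col robinson TE Cx)
open Pool.Agent.J6H49.BC Pool.Agent.J6H92.BC

variable {G : List Fml} {s l n : ℕ} {Δ : List Fml}

/-! ### the instance of the hypothesis -/

/-- the premises in the hypothesis -/
def Pr (P : List (ℕ × ℕ)) (D : List ℕ) (a b e : ℕ) : List Fml :=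
  cols P a ++ (cols P b ++ (col a b e :: neqs D e))

theorem Hyp_eq (P : List (ℕ × ℕ)) (D : List ℕ) :
    Hyp P D = .all 17 (.all 19 (.all 23 (imps (Pr P D 17 19 23) .bot))) := by
  unfold Hyp Pr
  simp only [imps_append, imps_cons]

theorem bb_Pr (P : List (ℕ × ℕ)) (D : List ℕ) (a b e : ℕ) : BB 0 (imps (Pr P D a b e) .bot) := by
  apply BB.imps _ (bb_bot 0)
  intro g hg
  unfold Pr at hg
  rcases List.mem_append.1 hg with hg | hg
  · exact bb_cols _ _ _ g hg
  · rcases List.mem_append.1 hg with hg | hg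
    · exact bb_cols _ _ _ g hg
    · rcases List.mem_cons.1 hg with rfl | hg
      · exact bb_col _ _ _ _
      · exact bb_neqs _ _ _ g hg

theorem ff_Pr (P : List (ℕ × ℕ)) (D : List ℕ) (a b e x y : ℕ) :
    (imps (Pr P D a b e) .bot).FreeFor x y := by
  refine freeFor_imps (fun g hg => ?_) (show (Fm.bot : Fml).FreeFor x y from trivial)
  unfold Pr at hg
  rcases List.mem_append.1 hg with hg | hg
  · exact cols_freeFor _ _ _ _ g hg
  · rcases List.mem_append.1 hg with hg | hg
    · exact cols_freeFor _ _ _ _ g hg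
    · rcases List.mem_cons.1 hg with rfl | hg
      · trivial
      · exact neqs_freeFor _ _ _ _ g hg

theorem Pr_subst {P : List (ℕ × ℕ)} {D : List ℕ} {x : ℕ} (hP : ∀ p ∈ P, p.1 ≠ x ∧ p.2 ≠ x)
    (hD : ∀ d ∈ D, d ≠ x) (a b e y : ℕ) : (imps (Pr P D a b e) .bot).subst x y =
      imps (Pr P D (ren x y a) (ren x y b) (ren x y e)) .bot := by
  rw [subst_imps]
  unfold Pr
  rw [List.map_append, List.map_append, List.map_cons, cols_subst hP, cols_subst hP,
    neqs_subst hD, col_subst]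
  rfl

theorem sz_Pr {k r a b e : ℕ} (hkr : k + r ≤ n) (ha : a ≤ 42 * (n + 1)) (hb : b ≤ 42 * (n + 1))
    (he : e ≤ 42 * (n + 1)) : sz (imps (Pr (PP k) (DD r) a b e) .bot) ≤ 700 * (n + 1) ^ 2 := by
  have h1 := cs_cols (P := PP k) (v := a) (m := 42 * (n + 1))
    (fun x hx => (PP_bd (by omega) x hx).1) ha
  have h2 := cs_cols (P := PP k) (v := b) (m := 42 * (n + 1))
    (fun x hx => (PP_bd (by omega) x hx).1) hb
  have h3 := cs_neqs (D := DD r) (e := e) (m := 42 * (n + 1))
    (fun x hx => (DD_bd (by omega) x hx).1) he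
  rw [len_PP] at h1 h2
  rw [len_DD] at h3
  have h4 : k * (4 * (42 * (n + 1)) + 16) ≤ (n + 1) * (4 * (42 * (n + 1)) + 16) :=
    Nat.mul_le_mul_right _ (by omega)
  have h5 : r * (2 * (42 * (n + 1)) + 18) ≤ (n + 1) * (2 * (42 * (n + 1)) + 18) :=
    Nat.mul_le_mul_right _ (by omega)
  unfold Pr
  simp only [sz_imps, cs_append, cs_cons, sz_col, sz_bot]
  nlinarith

theorem PP_ne {k x : ℕ} (hx : x < 40) : ∀ p ∈ PP k, p.1 ≠ x ∧ p.2 ≠ x := by
  intro p hp
  obtain ⟨i, hi, h1, h2⟩ := mem_PP hp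
  omega

theorem DD_ne {r x : ℕ} (hx : x < 40) : ∀ d ∈ DD r, d ≠ x := by
  intro d hd
  obtain ⟨i, hi, h1⟩ := mem_DD hd
  omega

/-- the instance of the hypothesis -/
theorem instH (hs : 1000 * (n + 1) ^ 2 ≤ s) (hl : Δ.length ≤ l) (hΔ : ∀ g ∈ Δ, W 9 s g)
    {k r : ℕ} (hkr : k + r ≤ n) (hmem : Hyp (PP k) (DD r) ∈ Δ) :
    ND WB 9 s l G 4 Δ (imps (Pr (PP k) (DD r) (pn k) 17 38) .bot) := by
  have hn : 1 ≤ n + 1 := by omega
  have hsq : n + 1 ≤ (n + 1) ^ 2 := by nlinarith
  have hpn : pn k ≤ 42 * (n + 1) := by simp only [pn]; omega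
  have hpn' : 40 ≤ pn k := by simp only [pn]; omega
  have a0 : ND WB 9 s l G 1 Δ (.all 17 (.all 19 (.all 23
      (imps (Pr (PP k) (DD r) 17 19 23) .bot)))) := by
    rw [← Hyp_eq]
    exact .hyp hl hΔ hmem
  have e1 : (Fm.all 19 (.all 23 (imps (Pr (PP k) (DD r) 17 19 23) .bot))).subst 17 (pn k) =
      (.all 19 (.all 23 (imps (Pr (PP k) (DD r) (pn k) 19 23) .bot))) := by
    show (Fm.all 19 (.all 23 ((imps (Pr (PP k) (DD r) 17 19 23) .bot).subst 17 (pn k)))) = _
    rw [Pr_subst (PP_ne (by omega)) (DD_ne (by omega)), ren_eq, ren_ne (by omega),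
      ren_ne (by omega)]
  have a1 := a0.allE (pn k) (x := 17)
    (.inr (.inr ⟨by omega, .inr (.inr ⟨by omega, ff_Pr _ _ _ _ _ _ _⟩)⟩)) (by
    rw [e1]
    refine ⟨(((bb_Pr _ _ _ _ _).all 23).all 19).mono (by omega), ?_⟩
    have := sz_Pr (k := k) (r := r) (a := pn k) (b := 19) (e := 23) hkr hpn (by omega) (by omega)
    simp only [sz_all]
    nlinarith)
  rw [e1] at a1
  have e2 : (Fm.all 23 (imps (Pr (PP k) (DD r) (pn k) 19 23) .bot)).subst 19 17 =
      (.all 23 (imps (Pr (PP k) (DD r) (pn k) 17 23) .bot)) := by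
    show (Fm.all 23 ((imps (Pr (PP k) (DD r) (pn k) 19 23) .bot).subst 19 17)) = _
    rw [Pr_subst (PP_ne (by omega)) (DD_ne (by omega)), ren_eq, ren_ne (by omega),
      ren_ne (by omega)]
  have a2 := a1.allE 17 (x := 19)
    (.inr (.inr ⟨by omega, ff_Pr _ _ _ _ _ _ _⟩)) (by
    rw [e2]
    refine ⟨((bb_Pr _ _ _ _ _).all 23).mono (by omega), ?_⟩
    have := sz_Pr (k := k) (r := r) (a := pn k) (b := 17) (e := 23) hkr hpn (by omega) (by omega)
    simp only [sz_all]
    nlinarith)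
  rw [e2] at a2
  have e3 : (imps (Pr (PP k) (DD r) (pn k) 17 23) (.bot : Fml)).subst 23 38 =
      imps (Pr (PP k) (DD r) (pn k) 17 38) .bot := by
    rw [Pr_subst (PP_ne (by omega)) (DD_ne (by omega)), ren_eq, ren_ne (by omega),
      ren_ne (by omega)]
  have a3 := a2.allE 38 (x := 23) (ff_Pr _ _ _ _ _ _ _) (by
    rw [e3]
    refine ⟨(bb_Pr _ _ _ _ _).mono (by omega), ?_⟩
    have := sz_Pr (k := k) (r := r) (a := pn k) (b := 17) (e := 38) hkr hpn (by omega) (by omega)
    nlinarith)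
  rw [e3] at a3
  exact a3

/-- the contradiction, after the choice of the colour -/
theorem final0 (hs : 1000 * (n + 1) ^ 2 ≤ s) (hl : Δ.length + 10 ≤ l)
    (hΔ : ∀ g ∈ Δ, W 9 s g) {k r : ℕ} (hkr : k + r ≤ n)
    (hM : ∀ j < r, MM (gn j) (bn j) (gn (j + 1)) ∈ Δ) (hg : hi (gn r) 17 ∈ Δ)
    (hE : ∀ j < r, EE k j (bn j) ∈ Δ) (hc : ∀ g ∈ cols (PP k) 17, g ∈ Δ)
    (hc' : ∀ g ∈ cols (PP k) (pn k), g ∈ Δ)
    (h38 : col (pn k) 17 38 ∈ Δ) (hH : Hyp (PP k) (DD r) ∈ Δ) :
    ND WB 9 s l G (210 * (n + 1) ^ 2) Δ .bot := by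
  have hn : 1 ≤ n + 1 := by omega
  have hsq : n + 1 ≤ (n + 1) ^ 2 := by nlinarith
  have a := instH (G := G) (s := s) (l := l) (Δ := Δ) hs (by omega) hΔ hkr hH
  have hyp : ∀ g ∈ Δ, ND WB 9 s l G (100 * (n + 1)) Δ g :=
    fun g hg => (ND.hyp (by omega) hΔ hg).up (by omega)
  have b := ND_mps (M := 100 * (n + 1)) a (by
    intro g hg'
    unfold Pr at hg'
    rcases List.mem_append.1 hg' with h | h
    · exact hyp g (hc' g h)
    · rcases List.mem_append.1 h with h | h
      · exact hyp g (hc g h)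
      · rcases List.mem_cons.1 h with rfl | h
        · exact hyp _ h38
        · obtain ⟨d, hd, rfl⟩ := List.mem_map.1 h
          obtain ⟨i, hi', rfl⟩ := List.mem_map.1 hd
          rw [List.mem_range] at hi'
          exact notD hs hl hΔ hkr hM hg hE hc h38 hi')
  have hlenP : (Pr (PP k) (DD r) (pn k) 17 38).length = k + (k + (r + 1)) := by
    unfold Pr
    simp only [List.length_append, List.length_cons, cols, neqs, List.length_map, len_PP, len_DD]
  rw [hlenP] at b
  refine b.up ?_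
  have h7 : (k + (k + (r + 1))) * (100 * (n + 1) + 1) ≤ (2 * (n + 1)) * (100 * (n + 1) + 1) :=
    Nat.mul_le_mul_right _ (by omega)
  nlinarith

/-- the contradiction, in the context of all bounds -/
theorem final2 {C k r : ℕ} (hkr : k + r ≤ n) (hC : 2000 ≤ C) :
    ND WB 9 (C * (n + 1) ^ 3) (C * (n + 1)) G (260 * (n + 1) ^ 2) (G2 k r ++ Ds k r) .bot := by
  obtain ⟨s, hs⟩ : ∃ s, s = C * (n + 1) ^ 3 := ⟨_, rfl⟩
  obtain ⟨l, hl⟩ : ∃ l, l = C * (n + 1) := ⟨_, rfl⟩
  rw [← hs, ← hl]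
  have hn : 1 ≤ n + 1 := by omega
  have hsq : n + 1 ≤ (n + 1) ^ 2 := by nlinarith
  have hcu : (n + 1) ^ 2 ≤ (n + 1) ^ 3 := Nat.pow_le_pow_right hn (by norm_num)
  have hs1 : 2000 * (n + 1) ^ 2 ≤ s := by
    rw [hs]
    exact Nat.mul_le_mul hC hcu
  have hl1 : 2000 * (n + 1) ≤ l := by
    rw [hl]
    exact Nat.mul_le_mul_right _ hC
  have hpn : pn k ≤ 42 * (n + 1) := by simp only [pn]; omega
  have hpn' : 40 ≤ pn k := by simp only [pn]; omega
  have hgr : gn r ≤ 50 * (n + 1) := by simp only [gn]; omega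
  have hgr' : 40 ≤ gn r := by simp only [gn]; omega
  have hW0 : ∀ g ∈ G2 k r ++ Ds k r, W 9 s g := by
    intro g hg
    rcases List.mem_append.1 hg with hg | hg
    · exact (G2_W hkr (by omega) g hg).1
    · exact Ds_W hkr (by omega) le_rfl g hg
  have hlen0 : (G2 k r ++ Ds k r).length = k + 3 + (2 * r + 1) := by
    rw [List.length_append, len_G2, len_Ds]
  obtain ⟨LL, hLL⟩ : ∃ LL, LL = hi (gn r) 17 :: cols (PP k) 17 := ⟨_, rfl⟩
  have hlenLL : LL.length = k + 1 := by
    rw [hLL]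
    simp [cols, len_PP]
  have hWLL : ∀ g ∈ LL, W 9 s g := by
    intro g hg
    rw [hLL] at hg
    rcases List.mem_cons.1 hg with rfl | hg
    · refine ⟨bb_hi _ _ _, ?_⟩
      rw [sz_hi]
      nlinarith
    · obtain ⟨x, hx, rfl⟩ := List.mem_map.1 hg
      have := PP_bd (n := n) (by omega) x hx
      refine ⟨bb_col _ _ _ _, ?_⟩
      rw [sz_col]
      nlinarith
  have hW1 : ∀ g ∈ (G2 k r ++ Ds k r) ++ LL, W 9 s g := by
    intro g hg
    rcases List.mem_append.1 hg with hg | hg
    · exact hW0 g hg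
    · exact hWLL g hg
  have hlen1 : ((G2 k r ++ Ds k r) ++ LL).length + 20 ≤ l := by
    rw [List.length_append, hlen0, hlenLL]
    omega
  have hWc : W 9 s (col (pn k) 17 38) := by
    refine ⟨bb_col _ _ _ _, ?_⟩
    rw [sz_col]
    nlinarith
  have hW2 : ∀ g ∈ ((G2 k r ++ Ds k r) ++ LL) ++ [col (pn k) 17 38], W 9 s g := by
    intro g hg
    rcases List.mem_append.1 hg with hg | hg
    · exact hW1 g hg
    · rw [List.mem_singleton] at hg; rw [hg]; exact hWc
  have hM1 : ∀ j < r, MM (gn j) (bn j) (gn (j + 1)) ∈ (G2 k r ++ Ds k r) ++ LL := fun j hj =>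
    List.mem_append_left _ (List.mem_append_right _ (MM_mem k hj))
  have hg1 : hi (gn r) 17 ∈ (G2 k r ++ Ds k r) ++ LL :=
    List.mem_append_right _ (by rw [hLL]; exact List.mem_cons_self)
  -- after the choice of the colour
  have a := final0 (G := G) (s := s) (l := l) (n := n)
    (Δ := ((G2 k r ++ Ds k r) ++ LL) ++ [col (pn k) 17 38]) (by omega)
    (by rw [List.length_append, List.length_singleton]; omega) hW2 hkr
    (fun j hj => List.mem_append_left _ (hM1 j hj)) (List.mem_append_left _ hg1)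
    (fun j hj => List.mem_append_left _ (List.mem_append_left _ (List.mem_append_right _
      (EE_mem k hj))))
    (fun g hg => List.mem_append_left _ (List.mem_append_right _ (by
      rw [hLL]; exact List.mem_cons_of_mem _ hg)))
    (fun g hg => List.mem_append_left _ (List.mem_append_left _ (List.mem_append_left _ (by
      unfold G2; exact List.mem_append_right _ hg))))
    (List.mem_append_right _ (by simp))
    (List.mem_append_left _ (List.mem_append_left _ (List.mem_append_left _ (by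
      unfold G2; simp))))
  -- the colour
  have b1 := instMC (G := G) (s := s) (l := l) (n := n) (Δ := (G2 k r ++ Ds k r) ++ LL)
    (w := pn k) (g := gn 0) (by omega) (by omega) hW1
    (List.mem_append_left _ (List.mem_append_right _ (MC_mem k r))) hpn' (by unfold gn; omega)
    (by omega) (by unfold gn; omega)
  have b2 := chainG (G := G) (s := s) (l := l) (n := n) (Δ := (G2 k r ++ Ds k r) ++ LL)
    (by omega) (by omega) hW1 (show r ≤ n by omega) hM1 hg1 r le_rfl
  rw [Nat.sub_self] at b2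
  have b3 := b1.mp b2
  have hfree : ∀ g ∈ (G2 k r ++ Ds k r) ++ LL, ∀ x, g.Free x → Sv r (r + 1) x ∨ x = 17 := by
    intro g hg x hx
    rcases List.mem_append.1 hg with hg | hg
    · exact .inl (G2Ds_free hg hx)
    · rw [hLL] at hg
      rcases List.mem_cons.1 hg with rfl | hg
      · rcases hx with h | h | h | h
        · left; unfold gn at h; unfold Sv; omega
        · exact .inr h
        · exact .inr h
        · exact .inr h
      · rcases free_cols hg hx with ⟨p, hp, h⟩ | h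
        · left
          obtain ⟨i, hi, h1, h2⟩ := mem_PP hp
          unfold Sv; omega
        · exact .inr h
  have b4 := ND_exE (c' := 0) (y := 38) b3 a
    (fun g hg hx => by have := hfree g hg 23 hx; unfold Sv at this; omega)
    (fun g hg hx => by have := hfree g hg 38 hx; unfold Sv at this; omega)
    (by rw [col_subst, ren_eq, ren_ne (by omega), ren_ne (by omega)]) trivial
    (bb_col _ _ _ _) (by omega) (by rw [sz_col]; nlinarith)
  -- closing the context
  have hKB : (Fm.all 17 (imps LL .bot) : Fml) = KB (PP k) (gn r) := by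
    rw [hLL]; rfl
  have hWKB : W 9 s (KB (PP k) (gn r)) := by
    refine ⟨(bb_KB _ _).mono (by omega), ?_⟩
    have := sz_KB (y := gn r) (show k ≤ n by omega)
    nlinarith
  have hWI : W 9 s (imps LL (.bot : Fml)) := by
    refine ⟨?_, ?_⟩
    · rw [hLL]
      exact BB.imps (fun g hg => by
        rcases List.mem_cons.1 hg with rfl | hg
        · exact bb_hi _ _ _
        · exact bb_cols _ _ _ g hg) (bb_bot _)
    · have h1 := hWKB.le
      rw [← hKB, sz_all] at h1
      omega
  have c1 := ND_impIs b4 hWI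
  have c2 := c1.allI (x := 17)
    (fun g hg hx => by have := G2Ds_free hg hx; unfold Sv at this; omega)
    (by rw [hKB]; exact hWKB)
  rw [hKB] at c2
  have c3 := instK (G := G) (s := s) (l := l) (n := n) (Δ := G2 k r ++ Ds k r) (by omega)
    (by omega) hW0 (show k ≤ n by omega) (y := gn r) (by
      apply List.mem_append_left
      unfold G2
      simp) (by omega) hgr
  have c4 : ND WB 9 s l G _ (G2 k r ++ Ds k r) .bot := c3.mp c2
  refine c4.up ?_
  rw [hlenLL]
  nlinarith

/-- **Module D2b.** -/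
theorem d2b : D2bT := by
  refine ⟨2000, fun C hC n k r N hkr G hN => ?_⟩
  have hT := steps hkr hC hN (final2 (G := G) hkr hC) r le_rfl
  rw [Nat.sub_self] at hT
  obtain ⟨s, hs⟩ : ∃ s, s = C * (n + 1) ^ 3 := ⟨_, rfl⟩
  obtain ⟨l, hl⟩ : ∃ l, l = C * (n + 1) := ⟨_, rfl⟩
  rw [← hs, ← hl] at hT
  rw [← hl]
  have hn : 1 ≤ n + 1 := by omega
  have hsq : n + 1 ≤ (n + 1) ^ 2 := by nlinarith
  have hcu : (n + 1) ^ 2 ≤ (n + 1) ^ 3 := Nat.pow_le_pow_right hn (by norm_num)
  have hs1 : 2000 * (n + 1) ^ 2 ≤ s := by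
    rw [hs]
    exact Nat.mul_le_mul hC hcu
  have hl1 : 2000 * (n + 1) ≤ l := by
    rw [hl]
    exact Nat.mul_le_mul_right _ hC
  rw [← hs]
  have hpn : pn k ≤ 42 * (n + 1) := by simp only [pn]; omega
  have hpn' : 40 ≤ pn k := by simp only [pn]; omega
  have hWG := fun g hg => (G2_W (n := n) (s := s) (k := k) (r := r) hkr (by omega) g hg).1
  have hlenG : (G2 k r).length ≤ l := by rw [len_G2]; omega
  -- the choice of `g_0`
  have a1 := instC (G := G) (s := s) (l := l) (n := n) (Δ := G2 k r) (w := pn k) (by omega)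
    hlenG hWG hpn' hpn
  have a2 : ND WB 9 s l G 1 (G2 k r) (hi 39 (pn k)) := .hyp hlenG hWG (by unfold G2; simp)
  have a3 := ND_exE (c' := 4) (y := gn 0) (a1.mp a2) hT
    (fun g hg hx => by have := free_G2 hg hx; unfold Sv at this; omega)
    (fun g hg hx => by have := free_G2 hg hx; unfold Sv gn at this; omega)
    (MC_subst 19 (by unfold pn gn; omega) (by unfold gn; omega))
    (MC_freeFor (by omega) (by omega)) (bb_MC _ _) (by omega)
    (by rw [sz_MC]; unfold gn; nlinarith)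
  -- closing the context
  have hG2 : G2 k r = [Hyp (PP k) (DD r), Kf (PP k)] ++
      (hi 39 (pn k) :: cols (PP k) (pn k)) := by
    unfold G2; simp
  rw [hG2] at a3
  have hWB : ∀ g ∈ [Hyp (PP k) (DD r), Kf (PP k)], W 9 s g := fun g hg => hWG g (by
    rw [hG2]; exact List.mem_append_left _ hg)
  have hWP : ∀ y, y ≤ 42 * (n + 1) →
      W 9 s (imps (hi 39 y :: cols (PP k) y) (.bot : Fml)) := by
    intro y hy
    refine ⟨BB.imps (fun g hg => ?_) (bb_bot _), ?_⟩
    · rcases List.mem_cons.1 hg with rfl | hg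
      · exact bb_hi _ _ _
      · exact bb_cols _ _ _ g hg
    · have h1 := cs_cols (P := PP k) (v := y) (m := 42 * (n + 1))
        (fun x hx => (PP_bd (by omega) x hx).1) hy
      rw [len_PP] at h1
      have h4 : k * (4 * (42 * (n + 1)) + 16) ≤ (n + 1) * (4 * (42 * (n + 1)) + 16) :=
        Nat.mul_le_mul_right _ (by omega)
      simp only [sz_imps, cs_cons, sz_hi, sz_bot]
      nlinarith
  have b1 := ND_impIs a3 (hWP _ hpn)
  have hszP := (hWP _ hpn).le
  have b2 := b1.allI (x := pn k)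
    (fun g hg hx => by have := free_base hg hx; unfold pn at this; omega)
    (by
      refine ⟨?_, ?_⟩
      · refine BB.mono (c := 2) ((BB.imps (fun g hg => ?_) (bb_bot 0)).all (pn k)) (by omega)
        rcases List.mem_cons.1 hg with rfl | hg
        · exact bb_hi _ _ _
        · exact bb_cols _ _ _ g hg
      · have h1 := cs_cols (P := PP k) (v := pn k) (m := 42 * (n + 1))
          (fun x hx => (PP_bd (by omega) x hx).1) hpn
        rw [len_PP] at h1
        have h4 : k * (4 * (42 * (n + 1)) + 16) ≤ (n + 1) * (4 * (42 * (n + 1)) + 16) :=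
          Nat.mul_le_mul_right _ (by omega)
        simp only [sz_all, sz_imps, cs_cons, sz_hi, sz_bot]
        nlinarith)
  have e1 : (imps (hi 39 (pn k) :: cols (PP k) (pn k)) (.bot : Fml)).subst (pn k) 17 =
      imps (hi 39 17 :: cols (PP k) 17) .bot := by
    rw [subst_imps, List.map_cons, cols_subst (fun p hp => by
      obtain ⟨i, hi, h1, h2⟩ := mem_PP hp
      unfold pn
      omega), hi_subst, ren_eq, ren_ne (by omega)]
    rfl
  have b3 := b2.allE 17 (freeFor_imps (fun g hg => by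
      rcases List.mem_cons.1 hg with rfl | hg
      · trivial
      · exact cols_freeFor _ _ _ _ g hg) trivial) (by rw [e1]; exact hWP 17 (by omega))
  rw [e1] at b3
  have hKB : (Fm.all 17 (imps (hi 39 17 :: cols (PP k) 17) .bot) : Fml) = KB (PP k) 39 := rfl
  have b4 := b3.allI (x := 17)
    (fun g hg hx => by have := free_base hg hx; omega)
    (by
      rw [hKB]
      refine ⟨(bb_KB _ _).mono (by omega), ?_⟩
      have := sz_KB (y := 39) (show k ≤ n by omega)
      nlinarith)
  rw [hKB] at b4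
  have b5 := instK (G := G) (s := s) (l := l) (n := n)
    (Δ := [Hyp (PP k) (DD r), Kf (PP k)]) (by omega)
    (by simp only [List.length_cons, List.length_nil]; omega) hWB (show k ≤ n by omega)
    (y := 39) (by simp) (by omega) (by omega)
  have b6 : ND WB 9 s l G _ ([Hyp (PP k) (DD r)] ++ [Kf (PP k)]) .bot := b5.mp b4
  have hWK : W 9 s (Kf (PP k)) := hWB _ (by simp)
  have hWH : W 9 s (Hyp (PP k) (DD r)) := hWB _ (by simp)
  have hszK : sz (Kf (PP k)) ≤ 330 * (n + 1) ^ 2 :=
    sz_Kf hn (by rw [len_PP]; omega) (fun x hx => (PP_bd (by omega) x hx).1)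
  have hszH : sz (Hyp (PP k) (DD r)) ≤ 650 * (n + 1) ^ 2 :=
    sz_Hyp hn (by rw [len_PP]; omega) (by rw [len_DD]; omega)
      (fun x hx => (PP_bd (by omega) x hx).1) (fun x hx => (DD_bd (by omega) x hx).1)
  have b7 := b6.impI (φ := Kf (PP k)) ⟨hWK.bb.imp (bb_bot _), by
    rw [sz_imp, sz_bot]; nlinarith⟩
  have b8 : ND WB 9 s l G _ ([] ++ [Hyp (PP k) (DD r)]) ((Kf (PP k)).imp .bot) := b7
  have b9 := b8.impI (φ := Hyp (PP k) (DD r)) ⟨hWH.bb.imp (hWK.bb.imp (bb_bot _)), by
    simp only [sz_imp, sz_bot]; nlinarith⟩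
  refine b9.up ?_
  have h8 : r * (N + 14) = r * N + r * 14 := Nat.mul_add _ _ _
  have h9 : 2000 * (n + 1) ^ 2 ≤ C * (n + 1) ^ 3 := Nat.mul_le_mul hC hcu
  simp only [List.length_cons, cols, List.length_map, len_PP]
  rw [h8]
  nlinarith

end Pool.Agent.J6H94.BC
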