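import Pool.Agent.J6H92.BC.D2a

/-!
# The step of the induction: rules and formulas
-/

set_option autoImplicit false

namespace Pool.Agent.J6H94.BC

open Pool.Agent.TH672 (Fm LogK ReplK Sw)
open Pool.Agent.TH672.Form (ren)
open Pool.Agent.TH636.BC (Fml blk inst lt col robinson TE Cx)
open Pool.Agent.J6H49.BC Pool.Agent.J6H92.BC

/-! ### substitution -/

theorem ren_ne {x y u : ℕ} (h : u ≠ x) : ren x y u = u := by
  unfold Pool.Agent.TH672.Form.ren; rw [if_neg h]

theorem ren_eq (x y : ℕ) : ren x y x = y := by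
  unfold Pool.Agent.TH672.Form.ren; rw [if_pos rfl]

theorem hi_subst (a b x y : ℕ) : (hi a b).subst x y = hi (ren x y a) (ren x y b) := rfl

theorem col_subst (a b c x y : ℕ) :
    (col a b c).subst x y = col (ren x y a) (ren x y b) (ren x y c) := rfl

theorem cols_subst {P : List (ℕ × ℕ)} {x : ℕ} (hP : ∀ p ∈ P, p.1 ≠ x ∧ p.2 ≠ x) (v y : ℕ) :
    ((cols P v).map fun g => g.subst x y) = cols P (ren x y v) := by
  unfold cols
  rw [List.map_map]
  refine List.map_congr_left fun p hp => ?_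
  have h := hP p hp
  show (col p.1 v p.2).subst x y = _
  rw [col_subst, ren_ne h.1, ren_ne h.2]

theorem neqs_subst {D : List ℕ} {x : ℕ} (hD : ∀ d ∈ D, d ≠ x) (v y : ℕ) :
    ((neqs D v).map fun g => g.subst x y) = neqs D (ren x y v) := by
  unfold neqs
  rw [List.map_map]
  refine List.map_congr_left fun d hd => ?_
  show (Fm.neg (.eq v d) : Fml).subst x y = _
  show (Fm.neg (.eq (ren x y v) (ren x y d)) : Fml) = _
  rw [ren_ne (hD d hd)]

theorem cx_subst {t : Bool} {k : ℕ} {φ : Fml} (h : Cx t k φ) (x y : ℕ) :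
    Cx t k (φ.subst x y) := by
  induction h with
  | bot => exact .bot _ _
  | eq => exact .eq _ _ _ _
  | zero => exact .zero _ _ _
  | succ => exact .succ _ _ _ _
  | add => exact .add _ _ _ _ _
  | mul => exact .mul _ _ _ _ _
  | op => exact .op _ _ _ _ _ _ _
  | imp _ _ ih1 ih2 => exact .imp ih1 ih2
  | @all k u φ h ih =>
    simp only [Fm.subst]
    split_ifs
    · exact .all h
    · exact .all ih
  | lift _ ih => exact .lift ih

theorem bb_subst {k : ℕ} {φ : Fml} (h : BB k φ) (x y : ℕ) : BB k (φ.subst x y) :=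
  fun t => cx_subst (h t) x y

/-! ### rules -/

variable {Γ G : List Fml} {c s l : ℕ}

/-- opening an existential statement -/
theorem ND_exE {N N' x y c' : ℕ} {Δ : List Fml} {φ φ' : Fml}
    (h : ND Γ c s l G N Δ (Fm.ex x φ)) (h' : ND Γ c s l G N' (Δ ++ [φ']) .bot)
    (hx : ∀ g ∈ Δ, ¬ g.Free x) (hy : ∀ g ∈ Δ, ¬ g.Free y) (hs : φ'.subst y x = φ)
    (hf : φ'.FreeFor x y) (hb : BB c' φ') (hc : c' + 2 ≤ c) (hsz : sz φ' + y + 20 ≤ s) :
    ND Γ c s l G (N + N' + 5) Δ .bot := by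
  have hbn : BB c' φ'.neg := bb_neg hb
  have hW0 : W c s φ'.neg := ⟨hbn.mono (by omega), by rw [sz_neg]; omega⟩
  have hW1 : W c s (.all y φ'.neg) := ⟨(hbn.all y).mono hc, by rw [sz_all, sz_neg]; omega⟩
  have hW2 : W c s (.all x φ.neg) := W_left (ND_wfs h).2.2
  have h1 : ND Γ c s l G (N' + 1) Δ φ'.neg := h'.impI hW0
  have h2 := h1.allI (x := y) hy hW1
  have e : (φ'.neg).subst y x = φ.neg := by
    show Fm.imp (φ'.subst y x) .bot = _
    rw [hs]; rfl
  have hWn : W c s φ.neg := by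
    have h3 := (ND_wfs h).2.2
    -- size and complexity are those of `φ'`
    refine ⟨?_, ?_⟩
    · rw [← e]
      exact (bb_subst hbn y x).mono (by omega)
    · have h4 := h3.le
      have h5 : sz (Fm.ex x φ) = sz φ.neg + x + 5 + 8 := by
        show sz (Fm.neg (.all x φ.neg)) = _
        rw [sz_neg, sz_all]
      omega
  have h3 := h2.allE x (show (φ'.neg).FreeFor x y from ⟨hf, trivial⟩) (by rw [e]; exact hWn)
  rw [e] at h3
  have h4 := h3.allI (x := x) hx hW2
  have h5 : ND Γ c s l G N Δ ((Fm.all x φ.neg).imp .bot) := h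
  exact (h5.mp h4).up (by omega)

/-- conjunctions, first part -/
theorem ND_andL {N : ℕ} {Δ : List Fml} {φ ψ : Fml} (h : ND Γ c s l G N Δ (φ.and ψ))
    (hl : Δ.length + 3 ≤ l) : ND Γ c s l G (N + 10) Δ φ := by
  obtain ⟨h1, h2, h3⟩ := ND_wfs h
  have w1 : W c s (φ.imp ψ.neg) := W_left h3
  have wφ : W c s φ := W_left w1
  have wnψ : W c s ψ.neg := W_right w1
  have wψ : W c s ψ := W_left wnψ
  have hsz := h3.le
  have hsz' : sz (φ.and ψ) = sz φ + sz ψ + 20 := by
    show sz (Fm.neg (φ.imp ψ.neg)) = _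
    rw [sz_neg, sz_imp, sz_neg]; omega
  have hψ := sz_pos ψ
  have wnφ : W c s φ.neg := ⟨bb_neg wφ.bb, by rw [sz_neg]; omega⟩
  have wnnφ : W c s φ.neg.neg := ⟨bb_neg (bb_neg wφ.bb), by rw [sz_neg, sz_neg]; omega⟩
  have hw3 : ∀ g ∈ ((Δ ++ [φ.neg]) ++ [φ]) ++ [ψ], W c s g := by
    intro g hg
    simp only [List.mem_append, List.mem_singleton] at hg
    rcases hg with ((hg | rfl) | rfl) | rfl
    · exact h2 g hg
    · exact wnφ
    · exact wφ
    · exact wψ
  have hl3 : (((Δ ++ [φ.neg]) ++ [φ]) ++ [ψ]).length ≤ l := by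
    simp only [List.length_append, List.length_singleton]; omega
  have a1 : ND Γ c s l G 1 (((Δ ++ [φ.neg]) ++ [φ]) ++ [ψ]) (φ.imp .bot) :=
    .hyp hl3 hw3 (by simp [Fm.neg])
  have a2 : ND Γ c s l G 1 (((Δ ++ [φ.neg]) ++ [φ]) ++ [ψ]) φ := .hyp hl3 hw3 (by simp)
  have a3 : ND Γ c s l G 4 ((Δ ++ [φ.neg]) ++ [φ]) ψ.neg := (a1.mp a2).impI wnψ
  have a4 : ND Γ c s l G 5 (Δ ++ [φ.neg]) (φ.imp ψ.neg) := a3.impI w1
  have hw1 : ∀ g ∈ Δ ++ [φ.neg], W c s g := by
    intro g hg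
    simp only [List.mem_append, List.mem_singleton] at hg
    rcases hg with hg | rfl
    · exact h2 g hg
    · exact wnφ
  have a5 : ND Γ c s l G (N + 1) (Δ ++ [φ.neg]) ((φ.imp ψ.neg).imp .bot) :=
    h.sub (fun g hg => List.mem_append_left _ hg)
      (by simp only [List.length_append, List.length_singleton]; omega) hw1
  have a6 : ND Γ c s l G (N + 8) Δ φ.neg.neg := ((a5.mp a4).impI wnnφ).up (by omega)
  exact a6.dn.up (by omega)

/-- conjunctions, second part -/
theorem ND_andR {N : ℕ} {Δ : List Fml} {φ ψ : Fml} (h : ND Γ c s l G N Δ (φ.and ψ))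
    (hl : Δ.length + 3 ≤ l) : ND Γ c s l G (N + 10) Δ ψ := by
  obtain ⟨h1, h2, h3⟩ := ND_wfs h
  have w1 : W c s (φ.imp ψ.neg) := W_left h3
  have wφ : W c s φ := W_left w1
  have wnψ : W c s ψ.neg := W_right w1
  have wψ : W c s ψ := W_left wnψ
  have hsz := h3.le
  have hsz' : sz (φ.and ψ) = sz φ + sz ψ + 20 := by
    show sz (Fm.neg (φ.imp ψ.neg)) = _
    rw [sz_neg, sz_imp, sz_neg]; omega
  have hφ := sz_pos φ
  have wnnψ : W c s ψ.neg.neg := ⟨bb_neg (bb_neg wψ.bb), by rw [sz_neg, sz_neg]; omega⟩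
  have hw3 : ∀ g ∈ (Δ ++ [ψ.neg]) ++ [φ], W c s g := by
    intro g hg
    simp only [List.mem_append, List.mem_singleton] at hg
    rcases hg with (hg | rfl) | rfl
    · exact h2 g hg
    · exact wnψ
    · exact wφ
  have hl3 : ((Δ ++ [ψ.neg]) ++ [φ]).length ≤ l := by
    simp only [List.length_append, List.length_singleton]; omega
  have a1 : ND Γ c s l G 1 ((Δ ++ [ψ.neg]) ++ [φ]) ψ.neg := .hyp hl3 hw3 (by simp)
  have a4 : ND Γ c s l G 2 (Δ ++ [ψ.neg]) (φ.imp ψ.neg) := a1.impI w1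
  have hw1 : ∀ g ∈ Δ ++ [ψ.neg], W c s g := by
    intro g hg
    simp only [List.mem_append, List.mem_singleton] at hg
    rcases hg with hg | rfl
    · exact h2 g hg
    · exact wnψ
  have a5 : ND Γ c s l G (N + 1) (Δ ++ [ψ.neg]) ((φ.imp ψ.neg).imp .bot) :=
    h.sub (fun g hg => List.mem_append_left _ hg)
      (by simp only [List.length_append, List.length_singleton]; omega) hw1
  have a6 : ND Γ c s l G (N + 8) Δ ψ.neg.neg := ((a5.mp a4).impI wnnψ).up (by omega)
  exact a6.dn.up (by omega)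

end Pool.Agent.J6H94.BC
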