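import Pool.Agent.J6H94.BC.D2bA

/-!
# The step of the induction: the formulas and contexts
-/

set_option autoImplicit false

namespace Pool.Agent.J6H94.BC

open Pool.Agent.TH672 (Fm LogK ReplK Sw)
open Pool.Agent.TH672.Form (ren)
open Pool.Agent.TH636.BC (Fml blk inst lt col robinson TE Cx)
open Pool.Agent.J6H49.BC Pool.Agent.J6H92.BC

/-! ### the formulas -/

/-- the pairs `u`, `v` with `v` beyond `g` have a colour -/
def MC (w g : ℕ) : Fml := .all 21 (.imp (hi g 21) (.ex 23 (col w 21 23)))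

/-- beyond `b` there is nothing in the smaller set -/
def EE (k j b : ℕ) : Fml := .all 17 (.imp (hi b 17) (imps (cols (PJ k j) 17) .bot))

/-- what lies beyond `g` lies beyond `a` and `b` -/
def MM (a b g : ℕ) : Fml := .all 21 (.imp (hi g 21) (.and (hi a 21) (hi b 21)))

theorem bb_MC (w g : ℕ) : BB 4 (MC w g) := by
  have h : BB 2 (Fm.ex 23 (col w 21 23)) := bb_neg ((bb_neg (bb_col 0 w 21 23)).all 23)
  exact ((bb_hi 2 g 21).imp h).all 21

theorem bb_EE (k j b : ℕ) : BB 2 (EE k j b) :=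
  ((bb_hi 0 b 17).imp (BB.imps (bb_cols 0 _ 17) (bb_bot 0))).all 17

theorem bb_MM (a b g : ℕ) : BB 2 (MM a b g) :=
  ((bb_hi 0 g 21).imp (bb_neg ((bb_hi 0 a 21).imp (bb_neg (bb_hi 0 b 21))))).all 21

theorem sz_MC (w g : ℕ) : sz (MC w g) = w + g + 227 := by
  show sz (.all 21 (.imp (hi g 21) (.neg (.all 23 (.neg (col w 21 23)))))) = _
  simp only [sz_all, sz_imp, sz_hi, sz_neg, sz_col]
  omega

theorem sz_MM (a b g : ℕ) : sz (MM a b g) = a + b + g + 272 := by
  show sz (.all 21 (.imp (hi g 21) (.neg (.imp (hi a 21) (.neg (hi b 21)))))) = _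
  simp only [sz_all, sz_imp, sz_hi, sz_neg]
  omega

theorem sz_EE {k j r n b : ℕ} (hkr : k + r ≤ n) (hj : j < r) :
    sz (EE k j b) ≤ b + 300 * (n + 1) ^ 2 := by
  have h1 := cs_cols (P := PJ k j) (v := 17) (m := 42 * (n + 1))
    (fun x hx => (PJ_bd hkr hj x hx).1) (by omega)
  rw [len_PJ] at h1
  have h4 : (k + 1) * (4 * (42 * (n + 1)) + 16) ≤ (n + 1) * (4 * (42 * (n + 1)) + 16) :=
    Nat.mul_le_mul_right _ (by omega)
  unfold EE
  simp only [sz_all, sz_imps, sz_imp, sz_hi, sz_bot]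
  nlinarith

/-! ### substitutions -/

theorem MC_subst {w y : ℕ} (x : ℕ) (hw : w ≠ y) (hy : 40 ≤ y) :
    (MC w y).subst y x = MC w x := by
  unfold MC
  show (if (21 : ℕ) = y then _ else Fm.all 21 _) = _
  rw [if_neg (by omega)]
  show Fm.all 21 (Fm.imp ((hi y 21).subst y x) (Fm.imp (if (23 : ℕ) = y then _ else
    Fm.all 23 (((col w 21 23).subst y x).imp .bot)) .bot)) = _
  rw [if_neg (by omega), hi_subst, col_subst, ren_eq, ren_ne (show (21 : ℕ) ≠ y by omega),
    ren_ne hw, ren_ne (show (23 : ℕ) ≠ y by omega)]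
  rfl

theorem MC_freeFor {w g y x : ℕ} (hx : x ≠ 21) (hx' : x ≠ 23) : (MC w g).FreeFor x y := by
  refine .inr (.inr ⟨fun h => hx h.symm, trivial, ?_, trivial⟩)
  exact .inr (.inr ⟨fun h => hx' h.symm, trivial, trivial⟩)

theorem MM_subst {a b y : ℕ} (x : ℕ) (ha : a ≠ y) (hb : b ≠ y) (hy : 40 ≤ y) :
    (MM a b y).subst y x = MM a b x := by
  unfold MM
  show (if (21 : ℕ) = y then _ else Fm.all 21 (Fm.imp ((hi y 21).subst y x)
    (Fm.neg (Fm.imp ((hi a 21).subst y x) (Fm.neg ((hi b 21).subst y x)))))) = _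
  rw [if_neg (by omega), hi_subst, hi_subst, hi_subst, ren_eq,
    ren_ne (show (21 : ℕ) ≠ y by omega), ren_ne ha, ren_ne hb]
  rfl

theorem MM_freeFor {a b g y x : ℕ} (hx : x ≠ 21) : (MM a b g).FreeFor x y :=
  .inr (.inr ⟨fun h => hx h.symm, trivial, ⟨trivial, ⟨trivial, trivial⟩⟩, trivial⟩)

theorem EE_subst {k j y : ℕ} (x : ℕ) (hy : ∀ p ∈ PJ k j, p.1 ≠ y ∧ p.2 ≠ y) (hy' : 40 ≤ y) :
    (EE k j y).subst y x = EE k j x := by
  unfold EE
  show (if (17 : ℕ) = y then _ else Fm.all 17 (Fm.imp ((hi y 17).subst y x)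
    ((imps (cols (PJ k j) 17) .bot).subst y x))) = _
  rw [if_neg (by omega), hi_subst, subst_imps, cols_subst hy, ren_eq,
    ren_ne (show (17 : ℕ) ≠ y by omega)]
  rfl

theorem cols_freeFor (P : List (ℕ × ℕ)) (v x y : ℕ) : ∀ g ∈ cols P v, g.FreeFor x y := by
  intro g hg
  obtain ⟨p, _, rfl⟩ := List.mem_map.1 hg
  trivial

theorem neqs_freeFor (D : List ℕ) (v x y : ℕ) : ∀ g ∈ neqs D v, g.FreeFor x y := by
  intro g hg
  obtain ⟨p, _, rfl⟩ := List.mem_map.1 hg
  exact ⟨trivial, trivial⟩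

theorem EE_freeFor {k j b y x : ℕ} (hx : x ≠ 17) : (EE k j b).FreeFor x y :=
  .inr (.inr ⟨fun h => hx h.symm, trivial, freeFor_imps (cols_freeFor _ _ _ _) trivial⟩)

/-! ### free variables -/

/-- the variables that occur in the contexts -/
def Sv (a b x : ℕ) : Prop := x = 39 ∨ (40 ≤ x ∧ ((x - 40) % 6 < 3 ∨
  ((x - 40) % 6 = 3 ∧ x < 43 + 6 * a) ∨ ((x - 40) % 6 = 4 ∧ x < 44 + 6 * b)))

theorem Sv.mono {a b a' b' x : ℕ} (h : Sv a b x) (ha : a ≤ a') (hb : b ≤ b') : Sv a' b' x := by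
  unfold Sv at *; omega

theorem free_MC {w g x : ℕ} (h : (MC w g).Free x) : x = g ∨ x = w := by
  obtain ⟨h1, h | h⟩ := h
  · rcases h with h | h | h | h
    · exact .inl h
    · exact absurd h h1
    · exact absurd h h1
    · exact absurd h h1
  · obtain ⟨h2, h | h⟩ | h := h
    · rcases h with h | h | h | h
      · exact .inr h
      · exact absurd h h1
      · exact absurd h h2
      · exact absurd h h2
    · exact h.elim
    · exact h.elim

theorem free_MM {a b g x : ℕ} (h : (MM a b g).Free x) : x = g ∨ x = a ∨ x = b := by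
  obtain ⟨h1, h | (h | (h | h)) | h⟩ := h
  · rcases h with h | h | h | h
    · exact .inl h
    · exact absurd h h1
    · exact absurd h h1
    · exact absurd h h1
  · rcases h with h | h | h | h
    · exact .inr (.inl h)
    · exact absurd h h1
    · exact absurd h h1
    · exact absurd h h1
  · rcases h with h | h | h | h
    · exact .inr (.inr h)
    · exact absurd h h1
    · exact absurd h h1
    · exact absurd h h1
  · exact h.elim
  · exact h.elim

theorem free_EE {k j b x : ℕ} (h : (EE k j b).Free x) :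
    x = b ∨ ∃ p ∈ PJ k j, x = p.1 ∨ x = p.2 := by
  obtain ⟨h1, h | h⟩ := h
  · rcases h with h | h | h | h
    · exact .inl h
    · exact absurd h h1
    · exact absurd h h1
    · exact absurd h h1
  · rw [free_imps] at h
    rcases h with ⟨g, hg, h⟩ | h
    · rcases free_cols hg h with h | h
      · exact .inr h
      · exact absurd h h1
    · exact h.elim

theorem free_Kf {P : List (ℕ × ℕ)} {x : ℕ} (h : (Kf P).Free x) : ∃ p ∈ P, x = p.1 ∨ x = p.2 := by
  obtain ⟨h15, h⟩ : x ≠ 15 ∧ ((x ≠ 17 ∧ (Fm.imp (hi 15 17) (imps (cols P 17) .bot)).Free x) ∨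
    False) := h
  rcases h with ⟨h17, h⟩ | h
  · rcases h with h | h
    · rcases h with h | h | h | h
      · exact absurd h h15
      · exact absurd h h17
      · exact absurd h h17
      · exact absurd h h17
    · rw [free_imps] at h
      rcases h with ⟨g, hg, h⟩ | h
      · rcases free_cols hg h with h | h
        · exact h
        · exact absurd h h17
      · exact h.elim
  · exact h.elim

theorem free_Hyp {P : List (ℕ × ℕ)} {D : List ℕ} {x : ℕ} (h : (Hyp P D).Free x) :
    (∃ p ∈ P, x = p.1 ∨ x = p.2) ∨ x ∈ D := by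
  obtain ⟨h17, h19, h23, h⟩ : x ≠ 17 ∧ x ≠ 19 ∧ x ≠ 23 ∧ (imps (cols P 17)
    (imps (cols P 19) (.imp (col 17 19 23) (imps (neqs D 23) .bot)))).Free x := h
  rw [free_imps, free_imps] at h
  rcases h with ⟨g, hg, h⟩ | ⟨g, hg, h⟩ | h
  · rcases free_cols hg h with h | h
    · exact .inl h
    · exact absurd h h17
  · rcases free_cols hg h with h | h
    · exact .inl h
    · exact absurd h h19
  · rcases h with h | h
    · rcases h with h | h | h | h
      · exact absurd h h17
      · exact absurd h h19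
      · exact absurd h h23
      · exact absurd h h23
    · rw [free_imps] at h
      rcases h with ⟨g, hg, h⟩ | h
      · rcases free_neqs hg h with h | h
        · exact .inr h
        · exact absurd h h23
      · exact h.elim

theorem mem_PP {k : ℕ} {p : ℕ × ℕ} (h : p ∈ PP k) : ∃ i < k, p.1 = 40 + 6 * i ∧
    p.2 = 41 + 6 * i := by
  obtain ⟨i, hi, rfl⟩ := List.mem_map.1 h
  exact ⟨i, List.mem_range.1 hi, rfl, rfl⟩

theorem mem_PJ {k j : ℕ} {p : ℕ × ℕ} (h : p ∈ PJ k j) : (∃ i < k, p.1 = 40 + 6 * i ∧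
    p.2 = 41 + 6 * i) ∨ (p.1 = 40 + 6 * k ∧ p.2 = 42 + 6 * j) := by
  rcases List.mem_append.1 h with h | h
  · exact .inl (mem_PP h)
  · rw [List.mem_singleton] at h
    subst h
    exact .inr ⟨rfl, rfl⟩

theorem mem_DD {r d : ℕ} (h : d ∈ DD r) : ∃ i < r, d = 42 + 6 * i := by
  obtain ⟨i, hi, rfl⟩ := List.mem_map.1 h
  exact ⟨i, List.mem_range.1 hi, rfl⟩

/-- free variables of the hypotheses -/
theorem free_base {k r x : ℕ} {g : Fml} (hg : g ∈ [Hyp (PP k) (DD r), Kf (PP k)])
    (h : g.Free x) : 40 ≤ x ∧ (((x - 40) % 6 < 2 ∧ x < 40 + 6 * k) ∨ (x - 40) % 6 = 2) := by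
  simp only [List.mem_cons, List.not_mem_nil, or_false] at hg
  rcases hg with rfl | rfl
  · rcases free_Hyp h with ⟨p, hp, h⟩ | h
    · obtain ⟨i, hi, h1, h2⟩ := mem_PP hp
      omega
    · obtain ⟨i, hi, h1⟩ := mem_DD h
      omega
  · obtain ⟨p, hp, h⟩ := free_Kf h
    obtain ⟨i, hi, h1, h2⟩ := mem_PP hp
    omega

theorem free_G2 {k r x : ℕ} {g : Fml} (hg : g ∈ G2 k r) (h : g.Free x) : Sv 0 0 x := by
  unfold G2 at hg
  rw [List.mem_append] at hg
  rcases hg with hg | hg
  · simp only [List.mem_cons, List.not_mem_nil, or_false] at hg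
    rcases hg with rfl | rfl | rfl
    · have := free_base (k := k) (r := r) (g := Hyp (PP k) (DD r)) (by simp) h
      unfold Sv; omega
    · have := free_base (k := k) (r := r) (g := Kf (PP k)) (by simp) h
      unfold Sv; omega
    · unfold hi pn at h
      rcases h with h | h | h | h <;> unfold Sv <;> omega
  · rcases free_cols hg h with ⟨p, hp, h⟩ | h
    · obtain ⟨i, hi, h1, h2⟩ := mem_PP hp
      unfold Sv; omega
    · unfold pn at h
      unfold Sv; omega

/-! ### the opened contexts -/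

/-- the formulas added after `j` steps -/
def Ds (k : ℕ) : ℕ → List Fml
  | 0 => [MC (pn k) (gn 0)]
  | j + 1 => (Ds k j ++ [EE k j (bn j)]) ++ [MM (gn j) (bn j) (gn (j + 1))]

theorem len_Ds (k : ℕ) : ∀ j, (Ds k j).length = 2 * j + 1
  | 0 => rfl
  | j + 1 => by
    simp only [Ds, List.length_append, List.length_singleton, len_Ds k j]
    omega

theorem free_Ds {k : ℕ} : ∀ {j : ℕ} {g : Fml} {x : ℕ}, g ∈ Ds k j → g.Free x → Sv j (j + 1) x
  | 0, g, x, hg, h => by
    rw [Ds, List.mem_singleton] at hg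
    subst hg
    rcases free_MC h with h | h <;> unfold gn pn at * <;> unfold Sv <;> omega
  | j + 1, g, x, hg, h => by
    simp only [Ds, List.mem_append, List.mem_singleton] at hg
    rcases hg with (hg | rfl) | rfl
    · exact (free_Ds hg h).mono (by omega) (by omega)
    · rcases free_EE h with h | ⟨p, hp, h⟩
      · unfold bn at h; unfold Sv; omega
      · rcases mem_PJ hp with ⟨i, hi, h1, h2⟩ | ⟨h1, h2⟩ <;> unfold Sv <;> omega
    · rcases free_MM h with h | h | h <;> unfold gn bn at * <;> unfold Sv <;> omega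

theorem Ds_W {k r n s : ℕ} (hk : k + r ≤ n) (hs : 1000 * (n + 1) ^ 2 ≤ s) :
    ∀ {j : ℕ}, j ≤ r → ∀ g ∈ Ds k j, W 9 s g
  | 0, _, g, hg => by
    have hsq : n + 1 ≤ (n + 1) ^ 2 := by nlinarith
    rw [Ds, List.mem_singleton] at hg
    subst hg
    refine ⟨(bb_MC _ _).mono (by omega), ?_⟩
    rw [sz_MC]
    unfold pn gn
    nlinarith
  | j + 1, hj, g, hg => by
    have hsq : n + 1 ≤ (n + 1) ^ 2 := by nlinarith
    simp only [Ds, List.mem_append, List.mem_singleton] at hg
    rcases hg with (hg | rfl) | rfl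
    · exact Ds_W hk hs (by omega) g hg
    · refine ⟨(bb_EE _ _ _).mono (by omega), ?_⟩
      have := sz_EE (b := bn j) hk (show j < r by omega)
      unfold bn at *
      nlinarith
    · refine ⟨(bb_MM _ _ _).mono (by omega), ?_⟩
      rw [sz_MM]
      unfold gn bn
      nlinarith

theorem MC_mem (k : ℕ) : ∀ j, MC (pn k) (gn 0) ∈ Ds k j
  | 0 => by simp [Ds]
  | j + 1 => by simp [Ds, MC_mem k j]

theorem EE_mem (k : ℕ) : ∀ {j i : ℕ}, i < j → EE k i (bn i) ∈ Ds k j
  | 0, _, h => by omega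
  | j + 1, i, h => by
    simp only [Ds, List.mem_append, List.mem_singleton]
    by_cases hi : i = j
    · subst hi; simp
    · exact .inl (.inl (EE_mem k (by omega)))

theorem MM_mem (k : ℕ) : ∀ {j i : ℕ}, i < j → MM (gn i) (bn i) (gn (i + 1)) ∈ Ds k j
  | 0, _, h => by omega
  | j + 1, i, h => by
    simp only [Ds, List.mem_append, List.mem_singleton]
    by_cases hi : i = j
    · subst hi; simp
    · exact .inl (.inl (MM_mem k (by omega)))

end Pool.Agent.J6H94.BC
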