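import Pool.Agent.J6H94.BC.D2bB

/-!
# The step of the induction: the axioms and the induction
-/

set_option autoImplicit false

namespace Pool.Agent.J6H94.BC

open Pool.Agent.TH672 (Fm LogK ReplK Sw)
open Pool.Agent.TH672.Form (ren)
open Pool.Agent.TH636.BC (Fml blk inst lt col robinson TE Cx)
open Pool.Agent.J6H49.BC Pool.Agent.J6H92.BC

/-! ### the axioms -/

theorem axC_mem : (Fm.all 15 (.all 17 (.imp (hi 15 17) (.ex 19 (MC 17 19)))) : Fml) ∈ WB := by
  unfold WB U0 MC
  simp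

theorem axD_mem : (Fm.all 15 (.all 17 (.ex 19 (MM 15 17 19))) : Fml) ∈ WB := by
  unfold WB U0 MM
  simp

/-- the instance of the axiom on colours -/
theorem instC {Δ G : List Fml} {s l n : ℕ} (hs : 1000 * (n + 1) ^ 2 ≤ s) (hl : Δ.length ≤ l)
    (hΔ : ∀ g ∈ Δ, W 9 s g) {w : ℕ} (hw : 40 ≤ w) (hw' : w ≤ 42 * (n + 1)) :
    ND WB 9 s l G 3 Δ (.imp (hi 39 w) (.ex 19 (MC w 19))) := by
  have hn : 1 ≤ n + 1 := by omega
  have hsq : n + 1 ≤ (n + 1) ^ 2 := by nlinarith
  have bb0 : ∀ a b : ℕ, BB 6 (Fm.imp (hi a b) (.ex 19 (MC b 19))) :=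
    fun a b => (bb_hi _ _ _).imp (bb_neg ((bb_neg (bb_MC b 19)).all 19))
  have szE : ∀ b, sz (Fm.ex 19 (MC b 19)) = b + 286 := by
    intro b
    show sz (Fm.neg (.all 19 (Fm.neg (MC b 19)))) = _
    rw [sz_neg, sz_all, sz_neg, sz_MC]
  have h0 : ND WB 9 s l G 1 Δ (.all 15 (.all 17 (.imp (hi 15 17) (.ex 19 (MC 17 19))))) := by
    refine .thm hl hΔ ⟨?_, ?_⟩ (.inr (.inl axC_mem))
    · exact BB.all' (c := 7) (((bb0 15 17).all 17) false) 15
    · simp only [sz_all, sz_imp, sz_hi, szE]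
      omega
  have h1 := h0.allE 39 (x := 15) (by
    refine .inr (.inr ⟨by omega, trivial, ?_, trivial⟩)
    refine .inr (.inr ⟨by omega, ?_, trivial⟩)
    exact MC_freeFor (by omega) (by omega)) (by
    refine ⟨(bb_subst ((bb0 15 17).all 17) 15 39).mono (by omega), ?_⟩
    show sz (.all 17 (.imp (hi 39 17) (.ex 19 (MC 17 19)))) ≤ s
    simp only [sz_all, sz_imp, sz_hi, szE]
    omega)
  have h1' : ND WB 9 s l G 2 Δ (.all 17 (.imp (hi 39 17) (.ex 19 (MC 17 19)))) := h1
  have h2 := h1'.allE w (x := 17) (by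
    refine ⟨trivial, ?_, trivial⟩
    refine .inr (.inr ⟨by omega, ?_, trivial⟩)
    exact MC_freeFor (by omega) (by omega)) (by
    refine ⟨(bb_subst (bb0 39 17) 17 w).mono (by omega), ?_⟩
    show sz (.imp (hi 39 w) (.ex 19 (MC w 19))) ≤ s
    simp only [sz_imp, sz_hi, szE]
    omega)
  exact h2

/-- the instance of the axiom on directedness -/
theorem instD {Δ G : List Fml} {s l n : ℕ} (hs : 1000 * (n + 1) ^ 2 ≤ s) (hl : Δ.length ≤ l)
    (hΔ : ∀ g ∈ Δ, W 9 s g) {a b : ℕ} (ha : 40 ≤ a) (ha' : a ≤ 50 * (n + 1)) (hb : 40 ≤ b)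
    (hb' : b ≤ 50 * (n + 1)) :
    ND WB 9 s l G 3 Δ (.ex 19 (MM a b 19)) := by
  have hn : 1 ≤ n + 1 := by omega
  have hsq : n + 1 ≤ (n + 1) ^ 2 := by nlinarith
  have bb0 : ∀ a b : ℕ, BB 4 (Fm.ex 19 (MM a b 19)) :=
    fun a b => bb_neg ((bb_neg (bb_MM a b 19)).all 19)
  have szE : ∀ a b, sz (Fm.ex 19 (MM a b 19)) = a + b + 331 := by
    intro a b
    show sz (Fm.neg (.all 19 (Fm.neg (MM a b 19)))) = _
    rw [sz_neg, sz_all, sz_neg, sz_MM]
  have h0 : ND WB 9 s l G 1 Δ (.all 15 (.all 17 (.ex 19 (MM 15 17 19)))) := by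
    refine .thm hl hΔ ⟨?_, ?_⟩ (.inr (.inl axD_mem))
    · exact (((bb0 15 17).all 17).all 15).mono (by omega)
    · simp only [sz_all, szE]
      omega
  have h1 := h0.allE a (x := 15) (by
    refine .inr (.inr ⟨by omega, ?_, trivial⟩)
    refine .inr (.inr ⟨by omega, ?_, trivial⟩)
    exact MM_freeFor (by omega)) (by
    refine ⟨(bb_subst ((bb0 15 17).all 17) 15 a).mono (by omega), ?_⟩
    show sz (.all 17 (.ex 19 (MM a 17 19))) ≤ s
    simp only [sz_all, szE]
    omega)
  have h1' : ND WB 9 s l G 2 Δ (.all 17 (.ex 19 (MM a 17 19))) := h1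
  have ea : ren 17 b a = a := ren_ne (by omega)
  have e : (Fm.ex 19 (MM a 17 19)).subst 17 b = Fm.ex 19 (MM a b 19) := by
    show Fm.ex 19 (MM (ren 17 b a) b 19) = _
    rw [ea]
  have h2 := h1'.allE b (x := 17) (by
    refine ⟨?_, trivial⟩
    refine .inr (.inr ⟨by omega, ?_, trivial⟩)
    exact MM_freeFor (by omega)) (by
    rw [e]
    refine ⟨(bb0 a b).mono (by omega), ?_⟩
    rw [szE]
    omega)
  rw [e] at h2
  exact h2

/-! ### the induction -/

theorem G2Ds_free {k r j x : ℕ} {g : Fml} (hg : g ∈ G2 k r ++ Ds k j) (h : g.Free x) :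
    Sv j (j + 1) x := by
  rcases List.mem_append.1 hg with hg | hg
  · exact (free_G2 hg h).mono (by omega) (by omega)
  · exact free_Ds hg h

theorem steps {C n k r N T : ℕ} {G : List Fml} (hkr : k + r ≤ n) (hC : 2000 ≤ C)
    (hN : ∀ j < r, ND WB 9 (C * (n + 1) ^ 3) (C * (n + 1)) G N (G2 k r) (Fm.neg (Kf (PJ k j))))
    (hT : ND WB 9 (C * (n + 1) ^ 3) (C * (n + 1)) G T (G2 k r ++ Ds k r) .bot) :
    ∀ i, i ≤ r → ND WB 9 (C * (n + 1) ^ 3) (C * (n + 1)) G (i * (N + 14) + T)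
      (G2 k r ++ Ds k (r - i)) .bot := by
  obtain ⟨s, hs⟩ : ∃ s, s = C * (n + 1) ^ 3 := ⟨_, rfl⟩
  obtain ⟨l, hl⟩ : ∃ l, l = C * (n + 1) := ⟨_, rfl⟩
  rw [← hs, ← hl] at hN hT
  rw [← hs, ← hl]
  have hn : 1 ≤ n + 1 := by omega
  have hsq : n + 1 ≤ (n + 1) ^ 2 := by nlinarith
  have hcu : (n + 1) ^ 2 ≤ (n + 1) ^ 3 := Nat.pow_le_pow_right hn (by norm_num)
  have hs1 : 2000 * (n + 1) ^ 2 ≤ s := by
    rw [hs]
    exact Nat.mul_le_mul hC hcu
  have hl1 : 2000 * (n + 1) ≤ l := by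
    rw [hl]
    exact Nat.mul_le_mul_right _ hC
  intro i
  induction i with
  | zero =>
    intro _
    rw [Nat.sub_zero, Nat.zero_mul, Nat.zero_add]
    exact hT
  | succ i ih =>
    intro hi
    have h := ih (by omega)
    obtain ⟨j, hj⟩ : ∃ j, j = r - (i + 1) := ⟨_, rfl⟩
    have hj1 : r - i = j + 1 := by omega
    have hjr : j < r := by omega
    rw [hj1, Ds, ← List.append_assoc, ← List.append_assoc] at h
    rw [← hj]
    have hWj : ∀ g ∈ G2 k r ++ Ds k j, W 9 s g := by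
      intro g hg
      rcases List.mem_append.1 hg with hg | hg
      · exact (G2_W hkr (by omega) g hg).1
      · exact Ds_W hkr (by omega) hjr.le g hg
    have hWE : W 9 s (EE k j (bn j)) :=
      Ds_W hkr (by omega) (show j + 1 ≤ r by omega) _ (EE_mem k (by omega))
    have hWj' : ∀ g ∈ (G2 k r ++ Ds k j) ++ [EE k j (bn j)], W 9 s g := by
      intro g hg
      rcases List.mem_append.1 hg with hg | hg
      · exact hWj g hg
      · rw [List.mem_singleton] at hg; rw [hg]; exact hWE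
    have hlen : ((G2 k r ++ Ds k j) ++ [EE k j (bn j)]).length ≤ l := by
      simp only [List.length_append, len_G2, len_Ds, List.length_singleton]
      omega
    have hfree : ∀ g ∈ (G2 k r ++ Ds k j) ++ [EE k j (bn j)], ∀ x, g.Free x →
        Sv (j + 1) (j + 1) x := by
      intro g hg x hx
      rcases List.mem_append.1 hg with hg | hg
      · exact (G2Ds_free hg hx).mono (by omega) le_rfl
      · rw [List.mem_singleton] at hg
        subst hg
        rcases free_EE hx with h | ⟨p, hp, h⟩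
        · unfold bn at h; unfold Sv; omega
        · rcases mem_PJ hp with ⟨i, hi, h1, h2⟩ | ⟨h1, h2⟩ <;> unfold Sv <;> omega
    -- opening `MM`
    have a1 := instD (n := n) (G := G) (s := s) (l := l) (by omega) hlen hWj' (a := gn j)
      (b := bn j) (by unfold gn; omega) (by unfold gn; omega) (by unfold bn; omega)
      (by unfold bn; omega)
    have a2 := ND_exE (c' := 2) (y := gn (j + 1)) a1 h
      (fun g hg hx => by have := hfree g hg 19 hx; unfold Sv at this; omega)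
      (fun g hg hx => by have := hfree g hg _ hx; unfold Sv gn at this; omega)
      (MM_subst 19 (by unfold gn; omega) (by unfold gn bn; omega) (by unfold gn; omega))
      (MM_freeFor (by omega)) (bb_MM _ _ _) (by omega)
      (by rw [sz_MM]; unfold gn bn; nlinarith)
    -- opening `EE`
    have b1 : ND WB 9 s l G (N + 1) (G2 k r ++ Ds k j) (Fm.ex 15 (EE k j 15)) :=
      (hN j hjr).sub (fun g hg => List.mem_append_left _ hg)
        (by rw [List.length_append] at hlen; omega) hWj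
    have b2 := ND_exE (c' := 2) (y := bn j) b1 a2
      (fun g hg hx => by have := G2Ds_free hg hx; unfold Sv at this; omega)
      (fun g hg hx => by have := G2Ds_free hg hx; unfold Sv bn at this; omega)
      (EE_subst 15 (fun p hp => by
        rcases mem_PJ hp with ⟨i, hi, h1, h2⟩ | ⟨h1, h2⟩ <;> unfold bn <;> omega)
        (by unfold bn; omega))
      (EE_freeFor (by omega)) (bb_EE _ _ _) (by omega)
      (by
        have := sz_EE (b := bn j) hkr hjr
        unfold bn at *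
        nlinarith)
    refine b2.up ?_
    rw [Nat.succ_mul]
    omega

end Pool.Agent.J6H94.BC
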