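import Pool.Agent.J6H94.BC.D2bC

/-!
# The step of the induction: the last step
-/

set_option autoImplicit false

namespace Pool.Agent.J6H94.BC

open Pool.Agent.TH672 (Fm LogK ReplK Sw)
open Pool.Agent.TH672.Form (ren)
open Pool.Agent.TH636.BC (Fml blk inst lt col robinson TE Cx)
open Pool.Agent.J6H49.BC Pool.Agent.J6H92.BC

variable {G : List Fml} {s l n : ℕ} {Δ : List Fml}

/-- the bound `y` in the statement on the unboundedness -/
def KB (P : List (ℕ × ℕ)) (y : ℕ) : Fml := .all 17 (.imp (hi y 17) (imps (cols P 17) .bot))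

theorem bb_KB (P : List (ℕ × ℕ)) (y : ℕ) : BB 2 (KB P y) :=
  ((bb_hi 0 y 17).imp (BB.imps (bb_cols 0 _ 17) (bb_bot 0))).all 17

theorem sz_KB {k y : ℕ} (hk : k ≤ n) : sz (KB (PP k) y) ≤ y + 300 * (n + 1) ^ 2 := by
  have h1 := cs_cols (P := PP k) (v := 17) (m := 42 * (n + 1))
    (fun x hx => (PP_bd hk x hx).1) (by omega)
  rw [len_PP] at h1
  have h4 : k * (4 * (42 * (n + 1)) + 16) ≤ (n + 1) * (4 * (42 * (n + 1)) + 16) :=
    Nat.mul_le_mul_right _ (by omega)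
  unfold KB
  simp only [sz_all, sz_imps, sz_imp, sz_hi, sz_bot]
  nlinarith

/-- the set is unbounded: the instance for the bound `y` -/
theorem instK (hs : 1000 * (n + 1) ^ 2 ≤ s) (hl : Δ.length ≤ l) (hΔ : ∀ g ∈ Δ, W 9 s g)
    {k y : ℕ} (hk : k ≤ n) (hmem : Kf (PP k) ∈ Δ) (hy : 39 ≤ y) (hy' : y ≤ 50 * (n + 1)) :
    ND WB 9 s l G 2 Δ (Fm.neg (KB (PP k) y)) := by
  have hn : 1 ≤ n + 1 := by omega
  have hsq : n + 1 ≤ (n + 1) ^ 2 := by nlinarith
  have h0 : ND WB 9 s l G 1 Δ (.all 15 (Fm.neg (KB (PP k) 15))) := .hyp hl hΔ hmem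
  have e : (Fm.neg (KB (PP k) 15)).subst 15 y = Fm.neg (KB (PP k) y) := by
    show Fm.imp (Fm.all 17 (Fm.imp ((hi 15 17).subst 15 y)
      ((imps (cols (PP k) 17) .bot).subst 15 y))) .bot = _
    rw [subst_imps, cols_subst (fun p hp => by
      obtain ⟨i, hi, h1, h2⟩ := mem_PP hp
      omega)]
    rfl
  have h1 := h0.allE y (x := 15) (by
    refine ⟨?_, trivial⟩
    refine .inr (.inr ⟨by omega, trivial, freeFor_imps (cols_freeFor _ _ _ _) trivial⟩)) (by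
    rw [e]
    refine ⟨(bb_neg (bb_KB _ _)).mono (by omega), ?_⟩
    rw [sz_neg]
    have := sz_KB (y := y) hk
    nlinarith)
  rw [e] at h1
  exact h1

/-- the instance of `MM` -/
theorem instM (hs : 1000 * (n + 1) ^ 2 ≤ s) (hl : Δ.length ≤ l) (hΔ : ∀ g ∈ Δ, W 9 s g)
    {a b g : ℕ} (hmem : MM a b g ∈ Δ) (ha : 40 ≤ a) (hb : 40 ≤ b) (hg : 40 ≤ g)
    (ha' : a ≤ 50 * (n + 1)) (hb' : b ≤ 50 * (n + 1)) (hg' : g ≤ 50 * (n + 1)) :
    ND WB 9 s l G 2 Δ (.imp (hi g 17) (.and (hi a 17) (hi b 17))) := by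
  have hn : 1 ≤ n + 1 := by omega
  have hsq : n + 1 ≤ (n + 1) ^ 2 := by nlinarith
  have h0 : ND WB 9 s l G 1 Δ (.all 21 (.imp (hi g 21) (.and (hi a 21) (hi b 21)))) :=
    .hyp hl hΔ hmem
  have e : (Fm.imp (hi g 21) (.and (hi a 21) (hi b 21))).subst 21 17 =
      (.imp (hi g 17) (.and (hi a 17) (hi b 17))) := by
    show Fm.imp ((hi g 21).subst 21 17) (.and ((hi a 21).subst 21 17) ((hi b 21).subst 21 17)) = _
    rw [hi_subst, hi_subst, hi_subst, ren_eq, ren_ne (by omega), ren_ne (by omega),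
      ren_ne (by omega)]
  have h1 := h0.allE 17 (x := 21) ⟨trivial, ⟨trivial, ⟨trivial, trivial⟩⟩, trivial⟩ (by
    rw [e]
    refine ⟨(bb_hi _ _ _).imp (bb_neg ((bb_hi _ _ _).imp (bb_neg (bb_hi _ _ _)))), ?_⟩
    show sz (.imp (hi g 17) (.neg (.imp (hi a 17) (.neg (hi b 17))))) ≤ s
    simp only [sz_imp, sz_neg, sz_hi]
    nlinarith)
  rw [e] at h1
  exact h1

/-- the instance of `MC` -/
theorem instMC (hs : 1000 * (n + 1) ^ 2 ≤ s) (hl : Δ.length ≤ l) (hΔ : ∀ g ∈ Δ, W 9 s g)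
    {w g : ℕ} (hmem : MC w g ∈ Δ) (hw : 40 ≤ w) (hg : 40 ≤ g) (hw' : w ≤ 50 * (n + 1))
    (hg' : g ≤ 50 * (n + 1)) :
    ND WB 9 s l G 2 Δ (.imp (hi g 17) (.ex 23 (col w 17 23))) := by
  have hn : 1 ≤ n + 1 := by omega
  have hsq : n + 1 ≤ (n + 1) ^ 2 := by nlinarith
  have h0 : ND WB 9 s l G 1 Δ (.all 21 (.imp (hi g 21) (.ex 23 (col w 21 23)))) :=
    .hyp hl hΔ hmem
  have e : (Fm.imp (hi g 21) (.ex 23 (col w 21 23))).subst 21 17 =
      (.imp (hi g 17) (.ex 23 (col w 17 23))) := by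
    show Fm.imp ((hi g 21).subst 21 17) (.ex 23 ((col w 21 23).subst 21 17)) = _
    rw [hi_subst, col_subst, ren_eq, ren_ne (by omega), ren_ne (by omega), ren_ne (by omega)]
  have h1 := h0.allE 17 (x := 21) (by
    refine ⟨trivial, ?_, trivial⟩
    exact .inr (.inr ⟨by omega, trivial, trivial⟩)) (by
    rw [e]
    refine ⟨((bb_hi 2 _ _).imp (bb_neg ((bb_neg (bb_col 0 _ _ _)).all 23))).mono (by omega), ?_⟩
    show sz (.imp (hi g 17) (.neg (.all 23 (.neg (col w 17 23))))) ≤ s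
    simp only [sz_imp, sz_neg, sz_hi, sz_all, sz_col]
    nlinarith)
  rw [e] at h1
  exact h1

/-- the bounds: a point beyond `g_r` is beyond `g_(r-i)` -/
theorem chainG (hs : 1000 * (n + 1) ^ 2 ≤ s) (hl : Δ.length + 3 ≤ l)
    (hΔ : ∀ g ∈ Δ, W 9 s g) {r : ℕ} (hr : r ≤ n)
    (hM : ∀ j < r, MM (gn j) (bn j) (gn (j + 1)) ∈ Δ) (hg : hi (gn r) 17 ∈ Δ) :
    ∀ i, i ≤ r → ND WB 9 s l G (20 * i + 1) Δ (hi (gn (r - i)) 17) := by
  intro i
  induction i with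
  | zero =>
    intro _
    rw [Nat.sub_zero]
    exact .hyp (by omega) hΔ hg
  | succ i ih =>
    intro hi'
    have h := ih (by omega)
    obtain ⟨j, hj⟩ : ∃ j, j = r - (i + 1) := ⟨_, rfl⟩
    rw [show r - i = j + 1 by omega] at h
    rw [← hj]
    have h1 := instM (n := n) (G := G) (s := s) (l := l) (Δ := Δ) hs (by omega) hΔ
      (hM j (by omega))
      (by unfold gn; omega) (by unfold bn; omega) (by unfold gn; omega)
      (by unfold gn; omega) (by unfold bn; omega) (by unfold gn; omega)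
    exact (ND_andL (h1.mp h) hl).up (by omega)

theorem chainB (hs : 1000 * (n + 1) ^ 2 ≤ s) (hl : Δ.length + 3 ≤ l)
    (hΔ : ∀ g ∈ Δ, W 9 s g) {r : ℕ} (hr : r ≤ n)
    (hM : ∀ j < r, MM (gn j) (bn j) (gn (j + 1)) ∈ Δ) (hg : hi (gn r) 17 ∈ Δ) {j : ℕ}
    (hj : j < r) : ND WB 9 s l G (20 * n + 20) Δ (hi (bn j) 17) := by
  have h := chainG (G := G) hs hl hΔ hr hM hg (r - (j + 1)) (by omega)
  rw [show r - (r - (j + 1)) = j + 1 by omega] at h
  have h1 := instM (n := n) (G := G) (s := s) (l := l) (Δ := Δ) hs (by omega) hΔ (hM j hj)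
    (by unfold gn; omega) (by unfold bn; omega) (by unfold gn; omega)
    (by unfold gn; omega) (by unfold bn; omega) (by unfold gn; omega)
  exact (ND_andR (h1.mp h) hl).up (by omega)

theorem cols_PJ (k j v : ℕ) : cols (PJ k j) v = cols (PP k) v ++ [col (pn k) v (dn j)] := by
  unfold PJ cols
  rw [List.map_append]
  rfl

/-- the colour is not `d_j` -/
theorem notD (hs : 1000 * (n + 1) ^ 2 ≤ s) (hl : Δ.length + 10 ≤ l)
    (hΔ : ∀ g ∈ Δ, W 9 s g) {k r : ℕ} (hkr : k + r ≤ n)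
    (hM : ∀ j < r, MM (gn j) (bn j) (gn (j + 1)) ∈ Δ) (hg : hi (gn r) 17 ∈ Δ)
    (hE : ∀ j < r, EE k j (bn j) ∈ Δ) (hc : ∀ g ∈ cols (PP k) 17, g ∈ Δ)
    (h38 : col (pn k) 17 38 ∈ Δ) {j : ℕ} (hj : j < r) :
    ND WB 9 s l G (100 * (n + 1)) Δ (Fm.neg (.eq 38 (dn j))) := by
  have hn : 1 ≤ n + 1 := by omega
  have hsq : n + 1 ≤ (n + 1) ^ 2 := by nlinarith
  have hWe : W 9 s (Fm.eq 38 (dn j) : Fml) := by
    refine ⟨bb_eq _ _ _, ?_⟩
    rw [sz_eq]
    simp only [dn]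
    nlinarith
  have hWD' : ∀ g ∈ Δ ++ [Fm.eq 38 (dn j)], W 9 s g := by
    intro g hg
    rcases List.mem_append.1 hg with hg | hg
    · exact hΔ g hg
    · rw [List.mem_singleton] at hg
      rw [hg]
      exact hWe
  have hlen' : (Δ ++ [Fm.eq 38 (dn j)]).length ≤ l := by
    rw [List.length_append, List.length_singleton]
    omega
  have hyp' : ∀ g ∈ Δ ++ [Fm.eq 38 (dn j)],
      ND WB 9 s l G 1 (Δ ++ [Fm.eq 38 (dn j)]) g := fun g hg => .hyp hlen' hWD' hg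
  -- the colour
  have b1 : ND WB 9 s l G 1 (Δ ++ [Fm.eq 38 (dn j)])
      ((Fm.eq 38 (dn j)).imp ((col (pn k) 17 38).imp (col (pn k) 17 (dn j)))) := by
    refine .thm hlen' hWD' ⟨(bb_eq _ _ _).imp ((bb_col _ _ _ _).imp (bb_col _ _ _ _)), ?_⟩
      (.inr (.inr (.repl 38 (dn j) (col (pn k) 17 38) (col (pn k) 17 (dn j)) ?_)))
    · simp only [sz_imp, sz_eq, sz_col, pn, dn]
      nlinarith
    · exact .op (.inl rfl) (.inl rfl) (.inr ⟨rfl, rfl⟩) (.inr ⟨rfl, rfl⟩)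
  have b2 := (b1.mp (hyp' _ (by simp))).mp
    (hyp' (col (pn k) 17 38) (List.mem_append_left _ h38))
  -- the bound
  have hmE : EE k j (bn j) ∈ Δ := hE j hj
  have hWE := hΔ _ hmE
  have c0 : ND WB 9 s l G 1 (Δ ++ [Fm.eq 38 (dn j)])
      (.all 17 (.imp (hi (bn j) 17) (imps (cols (PJ k j) 17) .bot))) :=
    hyp' _ (List.mem_append_left _ hmE)
  have c1 := c0.allE 17 (x := 17)
    ⟨trivial, freeFor_imps (cols_freeFor _ _ _ _) trivial⟩ (by
    rw [subst_self]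
    refine ⟨(bb_hi _ _ _).imp (BB.imps (bb_cols _ _ _) (bb_bot _)), ?_⟩
    have h1 := hWE.le
    unfold EE at h1
    rw [sz_all] at h1
    omega)
  rw [subst_self] at c1
  have c2 : ND WB 9 s l G (20 * n + 21) (Δ ++ [Fm.eq 38 (dn j)]) (hi (bn j) 17) :=
    (chainB (G := G) hs (by omega) hΔ (by omega) hM hg hj).sub
      (fun g hg => List.mem_append_left _ hg) hlen' hWD'
  have c3 := c1.mp c2
  have c4 := ND_mps (M := 5) c3 (by
    intro g hg
    rw [cols_PJ] at hg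
    rcases List.mem_append.1 hg with hg | hg
    · exact (hyp' g (List.mem_append_left _ (hc g hg))).up (by omega)
    · rw [List.mem_singleton] at hg
      rw [hg]
      exact b2.up (by omega))
  have hlenP : (cols (PJ k j) 17).length = k + 1 := by
    unfold cols
    rw [List.length_map, len_PJ]
  rw [hlenP] at c4
  have c5 := c4.impI (by
    refine ⟨bb_neg (bb_eq _ _ _), ?_⟩
    rw [sz_imp, sz_eq, sz_bot]
    simp only [dn]
    nlinarith)
  exact c5.up (by omega)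

end Pool.Agent.J6H94.BC
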